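import Pool.Agent.helper50.PHN.Spec

set_option autoImplicit false

namespace Pool.Agent.PHN

open Finset

lemma GBB_ev {a b c d : ℝ} (hab : a < b) (hd : 0 < d) :
    ∀ᶠ x : ℝ in Filter.atTop, c * x ^ a ≤ d * x ^ b := by
  have h1 : Filter.Tendsto (fun x : ℝ => x ^ (b - a)) Filter.atTop Filter.atTop :=
    tendsto_rpow_atTop (by linarith)
  have h2 := h1.eventually (Filter.eventually_ge_atTop (c / d))
  filter_upwards [h2, Filter.eventually_gt_atTop (0 : ℝ)] with x hx hx0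
  have h3 : x ^ b = x ^ (b - a) * x ^ a := by
    rw [← Real.rpow_add hx0]
    congr 1
    ring
  have h4 : 0 < x ^ a := Real.rpow_pos_of_pos hx0 a
  rw [h3]
  have h5 : c ≤ d * x ^ (b - a) := by
    rw [div_le_iff₀ hd] at hx
    linarith
  calc c * x ^ a ≤ (d * x ^ (b - a)) * x ^ a := mul_le_mul_of_nonneg_right h5 h4.le
    _ = d * (x ^ (b - a) * x ^ a) := by ring

lemma GBB_RR (k : ℕ) : ((k : ℝ) + 1) ^ (1 / 4 : ℝ) ≤ (RR k : ℝ) + 1 := by
  have h1 : k < (Nat.sqrt k + 1) * (Nat.sqrt k + 1) := Nat.lt_succ_sqrt k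
  have h2 : Nat.sqrt k < (Nat.sqrt (Nat.sqrt k) + 1) * (Nat.sqrt (Nat.sqrt k) + 1) :=
    Nat.lt_succ_sqrt _
  have h3 : Nat.sqrt k + 1 ≤ (RR k + 1) ^ 2 := by
    unfold RR
    nlinarith
  have h4 : k + 1 ≤ (RR k + 1) ^ 4 := by
    calc k + 1 ≤ (Nat.sqrt k + 1) * (Nat.sqrt k + 1) := h1
      _ ≤ (RR k + 1) ^ 2 * (RR k + 1) ^ 2 := Nat.mul_le_mul h3 h3
      _ = (RR k + 1) ^ 4 := by ring
  have h5 : ((k : ℝ) + 1) ≤ ((RR k : ℝ) + 1) ^ (4 : ℝ) := by
    have : ((k + 1 : ℕ) : ℝ) ≤ (((RR k + 1) ^ 4 : ℕ) : ℝ) := by exact_mod_cast h4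
    push_cast at this
    rw [show (4 : ℝ) = ((4 : ℕ) : ℝ) by norm_num, Real.rpow_natCast]
    exact this
  have h6 : (0 : ℝ) ≤ (RR k : ℝ) + 1 := by positivity
  calc ((k : ℝ) + 1) ^ (1 / 4 : ℝ) ≤ (((RR k : ℝ) + 1) ^ (4 : ℝ)) ^ (1 / 4 : ℝ) :=
        Real.rpow_le_rpow (by positivity) h5 (by norm_num)
    _ = (RR k : ℝ) + 1 := by
        rw [← Real.rpow_mul h6]
        norm_num

theorem GBB (hGGB : GGB_stmt) : GBB_stmt := by
  have hl2 : 0 < Real.log 2 := Real.log_pos (by norm_num)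
  -- eventual inequalities in a real variable
  have e1 := GBB_ev (a := 8 / 100) (b := 1 / 4) (c := 210) (d := Real.log 2 / 4) (by norm_num)
    (by positivity)
  have e2 := GBB_ev (a := 0) (b := 1 / 4) (c := 2) (d := 1) (by norm_num) (by norm_num)
  have e3 := GBB_ev (a := 1 / 100) (b := 7 / 8) (c := 210) (d := 1 / 4) (by norm_num)
    (by norm_num)
  obtain ⟨A, hA⟩ := Filter.eventually_atTop.1 (e1.and (e2.and e3))
  obtain ⟨k₁, hk₁⟩ := exists_nat_ge (max A 1)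
  have hA1 : A ≤ k₁ := le_trans (le_max_left _ _) hk₁
  refine ⟨k₁, fun k hk q0 m hm => ?_⟩
  have hkr : (k₁ : ℝ) ≤ k := by exact_mod_cast hk
  have hx1 : (1 : ℝ) ≤ (k : ℝ) + 1 := by
    have : (0 : ℝ) ≤ (k : ℝ) := Nat.cast_nonneg k
    linarith
  have hx0 : (0 : ℝ) < (k : ℝ) + 1 := by linarith
  have hm1 : (1 : ℝ) ≤ (m : ℝ) := by exact_mod_cast hm
  have hlm : 0 ≤ Real.log m := Real.log_nonneg hm1
  constructor
  · intro hmY
    refine le_trans (hGGB q0 m hm) ?_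
    have h1 : Real.log m ≤ ((k : ℝ) + 1) ^ 8 := by
      have := Real.log_le_log (by linarith) hmY
      unfold YY at this
      rwa [Real.log_exp] at this
    have h2 : Real.log m ^ (1 / 100 : ℝ) ≤ ((k : ℝ) + 1) ^ (8 / 100 : ℝ) := by
      calc Real.log m ^ (1 / 100 : ℝ) ≤ (((k : ℝ) + 1) ^ 8) ^ (1 / 100 : ℝ) :=
            Real.rpow_le_rpow hlm h1 (by norm_num)
        _ = ((k : ℝ) + 1) ^ (8 / 100 : ℝ) := by
            rw [← Real.rpow_natCast, ← Real.rpow_mul hx0.le]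
            norm_num
    obtain ⟨g1, g2, -⟩ := hA ((k : ℝ) + 1) (by linarith)
    have h3 := GBB_RR k
    have h4 : 210 * Real.log m ^ (1 / 100 : ℝ) ≤ Real.log 2 * ((RR k : ℝ) / 2) := by
      have h5 : (2 : ℝ) ≤ ((k : ℝ) + 1) ^ (1 / 4 : ℝ) := by
        rw [Real.rpow_zero, mul_one, one_mul] at g2
        exact g2
      have h6 : ((k : ℝ) + 1) ^ (1 / 4 : ℝ) / 2 ≤ (RR k : ℝ) := by
        clear g1 g2 h1 h2
        generalize ((k : ℝ) + 1) ^ (1 / 4 : ℝ) = t at h3 h5 ⊢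
        linarith
      calc 210 * Real.log m ^ (1 / 100 : ℝ) ≤ 210 * ((k : ℝ) + 1) ^ (8 / 100 : ℝ) := by
            linarith
        _ ≤ Real.log 2 / 4 * ((k : ℝ) + 1) ^ (1 / 4 : ℝ) := g1
        _ = Real.log 2 / 2 * (((k : ℝ) + 1) ^ (1 / 4 : ℝ) / 2) := by ring
        _ ≤ Real.log 2 / 2 * (RR k : ℝ) := mul_le_mul_of_nonneg_left h6 (by positivity)
        _ = Real.log 2 * ((RR k : ℝ) / 2) := by ring
    rw [Real.rpow_def_of_pos (by norm_num : (0 : ℝ) < 2)]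
    exact Real.exp_le_exp.2 h4
  · intro n hn hmn
    refine le_trans (hGGB q0 m hm) ?_
    have hmn' : (m : ℝ) ≤ (n : ℝ) := by exact_mod_cast hmn
    have hn0 : (0 : ℝ) < (n : ℝ) := by linarith
    have hL : ((k : ℝ) + 1) ^ 8 < Real.log n := by
      have := Real.log_lt_log (Real.exp_pos _) hn
      rwa [Real.log_exp] at this
    have hLm : Real.log m ≤ Real.log n := Real.log_le_log (by linarith) hmn'
    have hx8 : (k : ℝ) + 1 ≤ ((k : ℝ) + 1) ^ 8 := le_self_pow₀ hx1 (by norm_num)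
    have hLpos : 0 < Real.log n := by linarith
    obtain ⟨-, -, g3⟩ := hA (Real.log n) (by linarith)
    have h1 : Real.log m ^ (1 / 100 : ℝ) ≤ Real.log n ^ (1 / 100 : ℝ) :=
      Real.rpow_le_rpow hlm hLm (by norm_num)
    have h2 : (k : ℝ) + 1 ≤ Real.log n ^ (1 / 8 : ℝ) := by
      calc (k : ℝ) + 1 = (((k : ℝ) + 1) ^ 8) ^ (1 / 8 : ℝ) := by
            rw [← Real.rpow_natCast, ← Real.rpow_mul hx0.le]
            norm_num
        _ ≤ Real.log n ^ (1 / 8 : ℝ) := Real.rpow_le_rpow (by positivity) hL.le (by norm_num)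
    have h3 : Real.log n ^ (7 / 8 : ℝ) * Real.log n ^ (1 / 8 : ℝ) = Real.log n := by
      rw [← Real.rpow_add hLpos]
      norm_num
    have h4 : Real.log n ^ (7 / 8 : ℝ) * ((k : ℝ) + 1) ≤ Real.log n := by
      calc Real.log n ^ (7 / 8 : ℝ) * ((k : ℝ) + 1)
          ≤ Real.log n ^ (7 / 8 : ℝ) * Real.log n ^ (1 / 8 : ℝ) :=
            mul_le_mul_of_nonneg_left h2 (Real.rpow_nonneg hLpos.le _)
        _ = Real.log n := h3
    have h5 : 210 * Real.log m ^ (1 / 100 : ℝ) ≤ Real.log n * (1 / (4 * ((k : ℝ) + 1))) := by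
      have h6 : 1 / 4 * Real.log n ^ (7 / 8 : ℝ) ≤ Real.log n * (1 / (4 * ((k : ℝ) + 1))) := by
        rw [mul_one_div, le_div_iff₀ (by positivity)]
        linarith
      linarith
    rw [Real.rpow_def_of_pos hn0]
    exact Real.exp_le_exp.2 h5

end Pool.Agent.PHN
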